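import Pool.Agent.Results.MP_464c42_nt.FewBases
import Pool.Agent.H107.NearFam

/-!
# Campana points with few bases near a given point: dimension zero

For nonzero integers `u i` let `X` be the hyperplane `∑ u i * X i = 0` of `ℙ ^ (n - 1)`, `n ≥ 3`, with its `n` coordinate
hyperplanes `D i` and `Δ = ∑ (1 - 1 / R) D i`; the pair `(X, Δ)` is of general type for `R > n`. Its Campana points over `ℤ_S`
are the primitive vectors `a` with `∑ u i * a i = 0` whose coordinates are `R`-full outside of `S`.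

**Theorem.** For every map `φ` of the integral vectors to a metric space (for example `a ↦ (a_i / a_n)_i` in `ℝ ^ (n - 1)` or
in `ℚ_p ^ (n - 1)`) there is a set `E` of Hausdorff dimension zero such that for all `z` outside of `E`, ALL `N`, all finite
sets `S`, ALL nonzero `u` and all `w > 0` there is `R` such that only finitely many Campana points `a` of the pair `(X, Δ)`
without vanishing partial sums satisfy `dist (φ a) z ≤ Y ^ (-w)`, where the coordinates are products of powers of `N`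
pairwise coprime integers `≤ Y` and `|a i| ≤ exp (Y ^ (1 / (R + 1)))`. If at most `N` primes divide the product of the
coordinates one may take for `Y` the largest of them (if it is not very small compared to the height of `a`): the neighbourhoods of
`z` are measured by the largest prime factor, not by the height.

The proof combines the bound `O(Y ^ ε)` for the number of these points (starting result `FewBases`) with coverings, for
multiplicities which grow with the precision.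
-/

set_option autoImplicit false

namespace Pool.Agent.Results.MP_464c42_nt.CampanaNearPoints

open Filter Pool.Agent.Results.MP_464c42_nt.FewBases

theorem points_mono {n N R R₀ : ℕ} (hR : R₀ ≤ R) {Y Y' : ℕ} (hY : 1 ≤ Y) (hYY : Y ≤ Y') {δ δ₀ : ℝ} (hδ0 : 0 ≤ δ)
    (hδ : δ ≤ δ₀) (S : Finset ℕ) (u : Fin n → ℤ) : CampanaPoints n N R Y δ S u ⊆ CampanaPoints n N R₀ Y' δ₀ S u := by
  rintro a ⟨h1, h2, h3, h4, x, e, h5, h6, h7, h8⟩
  refine ⟨h1, h2, h3, fun i => (h4 i).trans ?_, x, e, fun j => ⟨(h5 j).1, (h5 j).2.trans hYY⟩, h6,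
    fun i j hj => (h7 i j hj).imp id (fun h => hR.trans h), h8⟩
  have hY1 : (1 : ℝ) ≤ Y := by exact_mod_cast hY
  have hYY' : (Y : ℝ) ≤ Y' := by exact_mod_cast hYY
  refine Real.exp_le_exp.2 ?_
  exact (Real.rpow_le_rpow (by linarith) hYY' hδ0).trans (Real.rpow_le_rpow_of_exponent_le (hY1.trans hYY') hδ)

theorem count {n : ℕ} (N : ℕ) (S : Finset ℕ) (u : Fin n → ℤ) (hu : ∀ i, u i ≠ 0) (ε : ℝ) (hε : 0 < ε) :
    ∃ R : ℕ, ∃ C : ℝ, ∀ Y : ℝ, 1 ≤ Y → (CampanaPoints n N R ⌊Y⌋₊ (1 / ((R : ℝ) + 1)) S u).Finite ∧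
      ((CampanaPoints n N R ⌊Y⌋₊ (1 / ((R : ℝ) + 1)) S u).ncard : ℝ) ≤ C * Y ^ ε := by
  obtain ⟨R₀, δ, hδ, h⟩ := FewBases.result n N ε hε
  obtain ⟨C, hC⟩ := h S
  obtain ⟨K, hK⟩ := exists_nat_gt (1 / δ)
  have hlarge : ∀ᶠ Y : ℕ in atTop, ∀ i, ((|u i| : ℤ) : ℝ) ≤ Real.exp ((Y : ℝ) ^ δ) := by
    rw [eventually_all]
    intro i
    have h1 : Tendsto (fun Y : ℕ => Real.exp ((Y : ℝ) ^ δ)) atTop atTop :=
      Real.tendsto_exp_atTop.comp ((tendsto_rpow_atTop hδ).comp tendsto_natCast_atTop_atTop)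
    exact h1.eventually_ge_atTop _
  obtain ⟨Y₀, hY₀⟩ := eventually_atTop.1 hlarge
  refine ⟨max R₀ K, |C| * ((Y₀ : ℝ) + 1) ^ ε, fun Y hY => ?_⟩
  have hfl : 1 ≤ ⌊Y⌋₊ := Nat.le_floor (by exact_mod_cast hY)
  set Y' : ℕ := max ⌊Y⌋₊ (Y₀ + 1) with hY'
  have hle : 1 / (((max R₀ K : ℕ) : ℝ) + 1) ≤ δ := by
    have h3 : (K : ℝ) ≤ ((max R₀ K : ℕ) : ℝ) := by exact_mod_cast le_max_right _ _
    rw [div_le_iff₀ (by positivity)]
    rw [div_lt_iff₀ hδ] at hK
    nlinarith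
  have hsub : CampanaPoints n N (max R₀ K) ⌊Y⌋₊ (1 / (((max R₀ K : ℕ) : ℝ) + 1)) S u ⊆
      CampanaPoints n N R₀ Y' δ S u :=
    points_mono (le_max_left _ _) hfl (le_max_left _ _) (by positivity) hle S u
  obtain ⟨g1, g2⟩ := hC Y' u (hfl.trans (le_max_left _ _)) fun i =>
    ⟨hu i, hY₀ Y' ((Nat.le_succ _).trans (le_max_right _ _)) i⟩
  refine ⟨g1.subset hsub, ?_⟩
  have h4 : ((CampanaPoints n N (max R₀ K) ⌊Y⌋₊ (1 / (((max R₀ K : ℕ) : ℝ) + 1)) S u).ncard : ℝ) ≤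
      ((CampanaPoints n N R₀ Y' δ S u).ncard : ℝ) := by
    exact_mod_cast Set.ncard_le_ncard hsub g1
  have hY'le : (Y' : ℝ) ≤ ((Y₀ : ℝ) + 1) * Y := by
    have h5 : (0 : ℝ) ≤ Y₀ := Nat.cast_nonneg _
    have h6 : ((⌊Y⌋₊ : ℕ) : ℝ) ≤ Y := Nat.floor_le (by linarith)
    rw [hY']
    push_cast
    exact max_le (by nlinarith) (by nlinarith)
  calc ((CampanaPoints n N (max R₀ K) ⌊Y⌋₊ (1 / (((max R₀ K : ℕ) : ℝ) + 1)) S u).ncard : ℝ)
      ≤ C * (Y' : ℝ) ^ ε := h4.trans g2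
    _ ≤ |C| * (Y' : ℝ) ^ ε := mul_le_mul_of_nonneg_right (le_abs_self C) (Real.rpow_nonneg (Nat.cast_nonneg _) _)
    _ ≤ |C| * (((Y₀ : ℝ) + 1) * Y) ^ ε :=
        mul_le_mul_of_nonneg_left (Real.rpow_le_rpow (Nat.cast_nonneg _) hY'le hε.le) (abs_nonneg C)
    _ = |C| * ((Y₀ : ℝ) + 1) ^ ε * Y ^ ε := by
        rw [Real.mul_rpow (by positivity) (by linarith)]
        ring

/-- **Theorem.** For every map `φ` of the integral vectors to a metric space there is a set `E` of dimension zero such that for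
all `z` outside of `E`, all `N`, `S`, all nonzero `u` and all `w > 0` there is `R` such that only finitely many vectors `a` are in
`CampanaPoints n N R Y (1 / (R + 1)) S u` for an integer `Y ≥ 1` with `dist (φ a) z ≤ Y ^ (-w)`. -/
theorem result (n : ℕ) (M : Type) [MetricSpace M] (φ : (Fin n → ℤ) → M) :
    ∃ E : Set M, dimH E = 0 ∧ ∀ z ∉ E, ∀ (N : ℕ) (S : Finset ℕ) (u : Fin n → ℤ), (∀ i, u i ≠ 0) →
      ∀ w : ℝ, 0 < w → ∃ R : ℕ, {a | ∃ Y : ℕ, 1 ≤ Y ∧ a ∈ CampanaPoints n N R Y (1 / ((R : ℝ) + 1)) S u ∧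
        dist (φ a) z ≤ (Y : ℝ) ^ (-w)}.Finite := by
  obtain ⟨E, h1, h2⟩ := Pool.Agent.H107.ME.near_family φ
    (fun (j : ℕ × Finset ℕ × {u : Fin n → ℤ // ∀ i, u i ≠ 0}) R Y =>
      CampanaPoints n j.1 R ⌊Y⌋₊ (1 / ((R : ℝ) + 1)) j.2.1 j.2.2.1)
    (by
      rintro ⟨N, S, u, hu⟩ R Y Y' hY hYY
      exact points_mono le_rfl (Nat.le_floor (by exact_mod_cast hY)) (Nat.floor_le_floor hYY) (by positivity) le_rfl S u)
    (by
      rintro ⟨N, S, u, hu⟩ ε hε
      exact count N S u hu ε hε)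
  refine ⟨E, h1, fun z hz N S u hu w hw => ?_⟩
  obtain ⟨R, hR⟩ := h2 z hz (N, S, ⟨u, hu⟩) w hw
  refine ⟨R, hR.subset ?_⟩
  rintro a ⟨Y, g1, g2, g3⟩
  refine ⟨Y, g1, ?_, g3⟩
  simp only [Nat.floor_natCast]
  exact g2

end Pool.Agent.Results.MP_464c42_nt.CampanaNearPoints
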