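import Pool.Agent.Results.MP_464c42_nt.HeightWindows
import Pool.Agent.V11001.KM.Near

/-!
# C-pairs of general type on the line: no integral points near the powers of almost every real number

Let `ν n / log n → ∞`, for example `ν n = n`, `K` a number field of degree `d`, `S` a finite set of primes and
`Δ = (1 - 1 / m_0) (0) + (1 - 1 / m_1) (1) + (1 - 1 / m_2) (∞)` on the projective line with
`σ = 1 / m_0 + 1 / m_1 + 1 / m_2 < 1`. For almost every real `z > 1` and all `θ < 1 - min (4 σ / 7) (20 / 37)` the C-pair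
has only finitely many `S`-integral points `x` over `K` whose relative height `H_K(x) = exp (d h(x))` satisfies
`|H_K(x) - z ^ (ν n)| ≤ z ^ (θ ν n)` for some `n`.
-/

set_option autoImplicit false

namespace Pool.Agent.Results.MP_464c42_nt.PointsNearPowers

open NumberField IsDedekindDomain Pool.Agent.V11001.KM
open HeightWindows (height recip IsIntegral count)

/-- the exponent of the number of integral points -/
noncomputable def expo (m : Fin 3 → ℕ∞) : ℝ := min (4 * (∑ i, recip (m i)) / 7) (20 / 37)

/-- the relative height `exp (d h(x))` of a number in a field of degree `d` -/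
noncomputable def relHeight {K : Type} [Field K] [NumberField K] (x : K) : ℝ :=
  Real.exp ((Module.finrank ℚ K : ℝ) * height x)

/-- **Theorem.** Let `ν n / log n → ∞`, `B` a countable set of real numbers, `K` a number field of degree `d`, `S` a finite
set of primes of `K` and `m_0, m_1, m_2 ∈ {1, 2, …, ∞}` with `σ = 1 / m_0 + 1 / m_1 + 1 / m_2 < 1`.
(1) For `θ < 1` there is a set `E` of Hausdorff dimension at most `min (4 σ / 7) (20 / 37) / (1 - θ)` such that for each
`z > 1` outside `E` and each positive `β` in `B` the C-pair has only finitely many `S`-integral points `x ∈ K` with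
`|exp (d h(x)) - β z ^ (ν n)| ≤ z ^ (θ ν n)` for some `n`.
(2) For almost every real `z > 1` this holds for all `θ < 1 - min (4 σ / 7) (20 / 37)`. -/
theorem result : ∀ (K : Type) [Field K] [NumberField K] (S : Finset (HeightOneSpectrum (𝓞 K))) (m : Fin 3 → ℕ∞),
    (∀ i, 1 ≤ m i) → ∑ i, recip (m i) < 1 → ∀ ν : ℕ → ℝ, Fast ν → ∀ B : Set ℝ, B.Countable →
    (∀ θ : ℝ, θ < 1 → ∃ E : Set ℝ, dimH E ≤ ENNReal.ofReal (expo m / (1 - θ)) ∧
      ∀ z : ℝ, 1 < z → z ∉ E → ∀ β ∈ B, 0 < β →
        {x : K | IsIntegral S m x ∧ Near ν θ β z (relHeight x)}.Finite) ∧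
    (∀ᵐ z : ℝ, 1 < z → ∀ θ : ℝ, θ < 1 - expo m → ∀ β ∈ B, 0 < β →
        {x : K | IsIntegral S m x ∧ Near ν θ β z (relHeight x)}.Finite) := by
  intro K _ _ S m hm hσ ν hν B hB
  have hσ0 : 0 ≤ ∑ i, recip (m i) := by
    apply Finset.sum_nonneg
    intro i _
    unfold recip
    positivity
  have hs : 0 ≤ expo m := le_min (by positivity) (by norm_num)
  refine ⟨fun θ hθ => ?_, ?_⟩
  · obtain ⟨E, h1, h2⟩ := family (fun x : K => relHeight x) hν hs hθ B hB (J := Unit)
      (fun _ => {x : K | IsIntegral S m x}) (fun _ ε hε => count K S m hm hσ ε hε)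
    exact ⟨E, h1, fun z hz hzE β hβ hβ0 => h2 z hz hzE β hβ hβ0 ()⟩
  · filter_upwards [ae_family (fun x : K => relHeight x) hν hs B hB (J := Unit)
      (fun _ => {x : K | IsIntegral S m x}) (fun _ ε hε => count K S m hm hσ ε hε)] with z hz hz1 θ hθ β hβ hβ0
    exact hz hz1 θ hθ β hβ hβ0 ()

end Pool.Agent.Results.MP_464c42_nt.PointsNearPowers
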