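import Pool.Agent.Results.MP_464c42_nt.AlmostAllHypersurfacePairs
import Pool.Agent.V1172.PW.Eng3

/-!
# C-pairs without integral points in shrinking residue classes of hypersurfaces

Let `d ≥ 2 n + 3`, let `N = (n + d choose n)` be the dimension of the space of forms of degree `d` in `n + 1` variables, `p` a
prime and `σ > 0`. There is `η > 0` such that for all forms `α` with `p`-adic integral coefficients outside a set of Hausdorff
dimension at most `(N - η) / σ` (the space has dimension `N`, so `σ < 1` is allowed) and all large `T`, for ALL forms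
`F ∈ ℤ[x]` of degree `d` with `|F| ≤ T` and `|F - α|_p ≤ T ^ (-σ)`: no C-pair `(Pⁿ, ∑ (1 - 1/m_i) D_i)` with
`∑ D_i = div F`, `m_i ≥ 2`, has a point of height at most `|F| ^ θ` which is integral outside a set `S` of primes with
`∏_{q ∈ S} q ≤ |F| ^ κ`.
-/

set_option autoImplicit false

open MeasureTheory

namespace Pool.Agent.Results.MP_464c42_nt.ResidueClassesOfForms

open AlmostAllHypersurfacePairs

/-- the vector of the coefficients of `F` at the monomials of degree `d` (`Idx n d` is the set of their exponents) -/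
noncomputable def coeffs {n : ℕ} (d : ℕ) (F : MvPolynomial (Fin (n + 1)) ℤ) : Pool.Agent.TH390.Tw.Idx n d → ℝ :=
  fun m => ((F.coeff m.1 : ℤ) : ℝ)

/-- some C-pair supported on the zeros of `F`, with any multiplicities `m_i ≥ 2`, has a point of height at most `|F| ^ θ`
which is integral outside a finite set `S` of primes with `∏_{p ∈ S} p ≤ |F| ^ κ`; `|F|` is the largest absolute value of a
coefficient -/
def HasSmallPoint {n : ℕ} (d : ℕ) (κ θ : ℝ) (F : MvPolynomial (Fin (n + 1)) ℤ) : Prop :=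
  HasPoint F (‖coeffs d F‖ ^ κ) {x | ∀ j, |(x j : ℝ)| ≤ ‖coeffs d F‖ ^ θ}

/-- **Theorem.** -/
theorem result (n d : ℕ) (hd : 2 * n + 3 ≤ d) (κ θ s : ℝ) (hκ0 : 0 ≤ κ) (hκ : κ < 1)
    (hs0 : 2 / 3 < s) (hs1 : s ≤ 1) (hθs : 1 ≤ θ * s)
    (hθ : (n + 1) * θ + (1 + κ) * (1 - s / 2) + θ * d * s / 2 < d + 1) :
    ∃ η : ℝ, 0 < η ∧ ∀ (p : ℕ) [Fact p.Prime] (σ : ℝ), 0 < σ →
      ∃ E : Set (Pool.Agent.TH390.Tw.Idx n d → ℤ_[p]),
        dimH E ≤ ENNReal.ofReal ((((n + d).choose n : ℝ) - η) / σ) ∧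
        ∀ α : Pool.Agent.TH390.Tw.Idx n d → ℤ_[p], α ∉ E → ∃ T₀ : ℝ, ∀ T : ℝ, T₀ ≤ T →
          ∀ F : MvPolynomial (Fin (n + 1)) ℤ, F.IsHomogeneous d →
            (∀ m : Pool.Agent.TH390.Tw.Idx n d, |((F.coeff m.1 : ℤ) : ℝ)| ≤ T ∧
              ‖((F.coeff m.1 : ℤ) : ℤ_[p]) - α m‖ ≤ T ^ (-σ)) →
            ¬ HasSmallPoint d κ θ F := by
  obtain ⟨η₀, C, hη₀, hmain⟩ := (AlmostAllHypersurfacePairs.result n d hd κ θ s hκ0 hκ hs0 hs1 hθs).1 hθ
  have hN : (1 : ℝ) ≤ ((n + d).choose n : ℝ) := by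
    have : 0 < (n + d).choose n := Nat.choose_pos (by omega)
    exact_mod_cast this
  have hθ0 : 0 < θ := by
    by_contra hcon
    push Not at hcon
    have : θ * s ≤ 0 := mul_nonpos_of_nonpos_of_nonneg hcon (by linarith)
    linarith
  obtain ⟨η, hη⟩ : ∃ η, η = min η₀ 1 := ⟨_, rfl⟩
  have hη0 : 0 < η := by rw [hη]; exact lt_min hη₀ one_pos
  have hη1 : η ≤ 1 := by rw [hη]; exact min_le_right _ _
  have hηη : η ≤ η₀ := by rw [hη]; exact min_le_left _ _
  refine ⟨η, hη0, fun p hp σ hσ => ?_⟩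
  obtain ⟨E, h1, h2⟩ := Pool.Agent.V1172.PW.familyF p (κ := Pool.Agent.TH390.Tw.Idx n d)
    (P := MvPolynomial (Fin (n + 1)) ℤ) (fun F m => F.coeff m.1) (ι := Unit)
    (fun _ => {F : MvPolynomial (Fin (n + 1)) ℤ | F.IsHomogeneous d ∧ HasSmallPoint d κ θ F})
    (s := ((n + d).choose n : ℝ) - η) (by linarith) (fun _ ε hε => by
      refine ⟨|C|, fun X hX => ?_⟩
      have hfl : 1 ≤ ⌊X⌋₊ := Nat.le_floor (by exact_mod_cast hX)
      have hH' : (1 : ℝ) ≤ ((⌊X⌋₊ : ℕ) : ℝ) := by exact_mod_cast hfl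
      obtain ⟨g1, g2⟩ := hmain ⌊X⌋₊ hfl
      have hsub : {F : MvPolynomial (Fin (n + 1)) ℤ | (∀ m : Pool.Agent.TH390.Tw.Idx n d,
          |((F.coeff m.1 : ℤ) : ℝ)| ≤ X) ∧ F ∈ {F : MvPolynomial (Fin (n + 1)) ℤ | F.IsHomogeneous d ∧
          HasSmallPoint d κ θ F}} ⊆
          Exceptional n d ⌊X⌋₊ (((⌊X⌋₊ : ℕ) : ℝ) ^ κ) {x | ∀ j, |(x j : ℝ)| ≤ ((⌊X⌋₊ : ℕ) : ℝ) ^ θ} := by
        rintro F ⟨hFX, hF, hP⟩
        have hc : ∀ m : Pool.Agent.TH390.Tw.Idx n d, |F.coeff m.1| ≤ ((⌊X⌋₊ : ℕ) : ℤ) := by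
          intro m
          have h3 : ((F.coeff m.1).natAbs : ℝ) ≤ X := by
            rw [Nat.cast_natAbs]
            push_cast
            exact hFX m
          have h4 : (F.coeff m.1).natAbs ≤ ⌊X⌋₊ := Nat.le_floor h3
          rw [← Int.natCast_natAbs]
          exact_mod_cast h4
        have hn' : ‖coeffs d F‖ ≤ ((⌊X⌋₊ : ℕ) : ℝ) := by
          rw [pi_norm_le_iff_of_nonneg (Nat.cast_nonneg _)]
          intro m
          unfold coeffs
          rw [Real.norm_eq_abs]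
          have h5 : ((|F.coeff m.1| : ℤ) : ℝ) ≤ (((⌊X⌋₊ : ℕ) : ℤ) : ℝ) := by exact_mod_cast hc m
          rw [Int.cast_abs] at h5
          simpa using h5
        refine ⟨hF, ?_, ?_⟩
        · intro e
          by_cases he : F.coeff e = 0
          · rw [he, abs_zero]
            positivity
          · have hm := Pool.Agent.TH390.Tw.mem_finsuppAntidiag_of_hom hF he
            exact hc ⟨e, hm⟩
        · obtain ⟨S, r, G, m, hS, hQ, hG, hm, x, hx, hc'⟩ := hP
          refine ⟨S, r, G, m, hS, hQ.trans ?_, hG, hm, x, ?_, hc'⟩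
          · exact Real.rpow_le_rpow (norm_nonneg _) hn' hκ0
          · intro j
            exact (hx j).trans (Real.rpow_le_rpow (norm_nonneg _) hn' hθ0.le)
      refine ⟨g1.subset hsub, ?_⟩
      refine ((Nat.cast_le (α := ℝ)).2 (Set.ncard_le_ncard hsub g1)).trans (g2.trans ?_)
      refine mul_le_mul (le_abs_self C) ?_ (by positivity) (abs_nonneg C)
      calc ((⌊X⌋₊ : ℕ) : ℝ) ^ (((n + d).choose n : ℝ) - η₀) ≤
            ((⌊X⌋₊ : ℕ) : ℝ) ^ (((n + d).choose n : ℝ) - η + ε) :=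
            Real.rpow_le_rpow_of_exponent_le hH' (by linarith)
        _ ≤ X ^ (((n + d).choose n : ℝ) - η + ε) :=
            Real.rpow_le_rpow (Nat.cast_nonneg _) (Nat.floor_le (by linarith)) (by linarith)) hσ
  refine ⟨E, h1, fun α hα => ?_⟩
  obtain ⟨T₀, hT⟩ := h2 α hα ()
  exact ⟨T₀, fun T hT1 F hF hFw hP => hT T hT1 F hFw ⟨hF, hP⟩⟩

end Pool.Agent.Results.MP_464c42_nt.ResidueClassesOfForms
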