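import Pool.Agent.Results.MP_464c42_nt.AlmostAllHypersurfacePairs
import Pool.Agent.V35.WT

/-!
# C-pairs without integral points in windows around almost every direction of the space of hypersurfaces

Let `d ≥ 2 n + 3` and let `ℝ ^ N`, `N = (n + d choose n)`, be the space of real forms of degree `d` in `n + 1` variables.
Let `v_k ≥ 1` be a sequence with exponent of convergence at most `τ` (`0` for `v_k = x ^ k`, `1 / a` for
`v_k = (k + 1) ^ a`). There is `η > 0` such that for all `α ∈ ℝ ^ N` outside a set of Hausdorff dimension at most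
`(N - η + τ) / (1 - ω)`, which is a null set if `ω < (η - τ) / N`, and all large `k`, for ALL forms `F ∈ ℤ[x]` of degree `d`
with `|F - α v_k| ≤ v_k ^ ω`: no C-pair `(Pⁿ, ∑ (1 - 1/m_i) D_i)` with `∑ D_i = div F`, `m_i ≥ 2`, has a point of height at
most `|F| ^ θ` which is integral outside a set `S` of primes with `∏_{p ∈ S} p ≤ |F| ^ κ`.
-/

set_option autoImplicit false

open MeasureTheory

namespace Pool.Agent.Results.MP_464c42_nt.WindowsOfPairs

open Pool.Agent.V35.WM Pool.Agent.V35.WT AlmostAllHypersurfacePairs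

/-- the vector of the coefficients of `F` at the monomials of degree `d` (`Idx n d` is the set of their exponents) -/
noncomputable def coeffs {n : ℕ} (d : ℕ) (F : MvPolynomial (Fin (n + 1)) ℤ) : Pool.Agent.TH390.Tw.Idx n d → ℝ :=
  fun m => ((F.coeff m.1 : ℤ) : ℝ)

/-- some C-pair supported on the zeros of `F`, with any multiplicities `m_i ≥ 2`, has a point of height at most `|F| ^ θ`
which is integral outside a finite set `S` of primes with `∏_{p ∈ S} p ≤ |F| ^ κ`; `|F|` is the largest absolute value of a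
coefficient -/
def HasSmallPoint {n : ℕ} (d : ℕ) (κ θ : ℝ) (F : MvPolynomial (Fin (n + 1)) ℤ) : Prop :=
  HasPoint F (‖coeffs d F‖ ^ κ) {x | ∀ j, |(x j : ℝ)| ≤ ‖coeffs d F‖ ^ θ}

/-- **Theorem.** -/
theorem result (n d : ℕ) (hd : 2 * n + 3 ≤ d) (κ θ σ : ℝ) (hκ0 : 0 ≤ κ) (hκ : κ < 1)
    (hσ0 : 2 / 3 < σ) (hσ1 : σ ≤ 1) (hθσ : 1 ≤ θ * σ)
    (hθ : (n + 1) * θ + (1 + κ) * (1 - σ / 2) + θ * d * σ / 2 < d + 1) :
    (∃ η : ℝ, 0 < η ∧ ∀ (v : ℕ → ℝ) (τ ω : ℝ), (∀ k, 1 ≤ v k) → 0 ≤ τ → ExpLe v τ → ω < 1 →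
      ∃ E : Set (Pool.Agent.TH390.Tw.Idx n d → ℝ),
        dimH E ≤ ENNReal.ofReal ((((n + d).choose n : ℝ) - η + τ) / (1 - ω)) ∧
        (ω < (η - τ) / ((n + d).choose n : ℝ) → volume E = 0) ∧
        ∀ α : Pool.Agent.TH390.Tw.Idx n d → ℝ, α ∉ E → ∃ k₀ : ℕ, ∀ k : ℕ, k₀ ≤ k →
          ∀ F : MvPolynomial (Fin (n + 1)) ℤ, F.IsHomogeneous d → ‖coeffs d F - v k • α‖ ≤ (v k) ^ ω →
            ¬ HasSmallPoint d κ θ F) ∧
    (∀ x : ℝ, 1 < x → ExpLe (fun k : ℕ => x ^ k) 0) ∧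
    (∀ a : ℝ, 0 < a → ExpLe (fun k : ℕ => ((k : ℝ) + 1) ^ a) (1 / a)) := by
  refine ⟨?_, fun x hx => expLe_geom x hx, fun a ha => expLe_pow a ha⟩
  obtain ⟨η₀, C, hη₀, hmain⟩ := (AlmostAllHypersurfacePairs.result n d hd κ θ σ hκ0 hκ hσ0 hσ1 hθσ).1 hθ
  have hcard : (Fintype.card (Pool.Agent.TH390.Tw.Idx n d) : ℝ) = ((n + d).choose n : ℝ) := by
    rw [Pool.Agent.TH390.Tw.card_Idx]
  have hN : (1 : ℝ) ≤ ((n + d).choose n : ℝ) := by
    have : 0 < (n + d).choose n := Nat.choose_pos (by omega)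
    exact_mod_cast this
  haveI : Nonempty (Pool.Agent.TH390.Tw.Idx n d) := by
    rw [← Fintype.card_pos_iff, Pool.Agent.TH390.Tw.card_Idx]
    exact Nat.choose_pos (by omega)
  have hθ0 : 0 < θ := by
    by_contra hcon
    push Not at hcon
    have : θ * σ ≤ 0 := mul_nonpos_of_nonpos_of_nonneg hcon (by linarith)
    linarith
  obtain ⟨η, hη⟩ : ∃ η, η = min η₀ 1 := ⟨_, rfl⟩
  have hη0 : 0 < η := by rw [hη]; exact lt_min hη₀ one_pos
  have hη1 : η ≤ 1 := by rw [hη]; exact min_le_right _ _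
  have hηη : η ≤ η₀ := by rw [hη]; exact min_le_left _ _
  refine ⟨η, hη0, ?_⟩
  have hthin : Thin {F : MvPolynomial (Fin (n + 1)) ℤ | F.IsHomogeneous d ∧ HasSmallPoint d κ θ F}
      (fun F => (re (Pool.Agent.TH390.Tw.vec d F) : Pool.Agent.TH390.Tw.Idx n d → ℝ))
      (((n + d).choose n : ℝ) - η) := by
    refine thin_of (C := |C|) (by linarith)
      (fun H => Exceptional n d H ((H : ℝ) ^ κ) {x | ∀ j, |(x j : ℝ)| ≤ (H : ℝ) ^ θ}) ?_ ?_
    · intro H hH
      have hH' : (1 : ℝ) ≤ H := by exact_mod_cast hH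
      obtain ⟨h1, h2⟩ := hmain H hH
      refine ⟨h1, h2.trans ?_⟩
      refine (mul_le_mul_of_nonneg_right (le_abs_self C) (by positivity)).trans ?_
      apply mul_le_mul_of_nonneg_left _ (abs_nonneg C)
      exact Real.rpow_le_rpow_of_exponent_le hH' (by linarith)
    · rintro H hH F ⟨hF, hP⟩ hn
      have hn' : ‖coeffs d F‖ ≤ (H : ℝ) := hn
      refine ⟨hF, ?_, ?_⟩
      · intro e
        by_cases he : F.coeff e = 0
        · rw [he, abs_zero]
          positivity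
        · have hm := Pool.Agent.TH390.Tw.mem_finsuppAntidiag_of_hom hF he
          exact (re_le_iff (Pool.Agent.TH390.Tw.vec d F) H).1 hn ⟨e, hm⟩
      · obtain ⟨S, r, G, m, hS, hQ, hG, hm, x, hx, hc⟩ := hP
        refine ⟨S, r, G, m, hS, hQ.trans ?_, hG, hm, x, ?_, hc⟩
        · exact Real.rpow_le_rpow (norm_nonneg _) hn' hκ0
        · intro j
          exact (hx j).trans (Real.rpow_le_rpow (norm_nonneg _) hn' hθ0.le)
  intro v τ ω hv hτ hE hω
  obtain ⟨E, h1, h2, h3⟩ := windows (by linarith) hthin hv hτ hE hω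
  refine ⟨E, h1, fun h => h2 ?_, fun α hα => ?_⟩
  · have hN0 : (0 : ℝ) < ((n + d).choose n : ℝ) := by linarith
    have h4 : 1 - (((n + d).choose n : ℝ) - η + τ) / ((n + d).choose n : ℝ) = (η - τ) / ((n + d).choose n : ℝ) := by
      field_simp
      ring
    rw [hcard, h4]
    exact h
  · obtain ⟨k₀, hk⟩ := h3 α hα
    refine ⟨k₀, fun k hk1 F hF hFw hP => ?_⟩
    exact hk k hk1 F hFw ⟨hF, hP⟩

end Pool.Agent.Results.MP_464c42_nt.WindowsOfPairs
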